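import Pool.Agent.Y87.NE.Zero

/-! Torsion-free rings without zero divisors in the variety are commutative: representation by
matrices. -/

set_option autoImplicit false

namespace Pool.Agent.Y87.NE

open Pool.Agent.H854R3.NE Polynomial

theorem finite_of_identity' {R M : Type} [Ring R] [AddCommGroup M] [Module R M]
    [IsSimpleModule R M] [DecidableEq (Module.End R M)] {m : ℕ}
    (nn : Equiv.Perm (Fin m) → ℤ) (π0 : Equiv.Perm (Fin m))
    (h0 : ∀ v : M, nn π0 • v = 0 → v = 0)
    (hid : ∀ t : Fin m → R, ∑ π, nn π • (List.ofFn fun k => t (π k)).prod = 0) :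
    Module.Finite (Module.End R M) M := by
  classical
  by_contra hinf
  have h1 : ((m + 1 : ℕ) : Cardinal) ≤ Module.rank (Module.End R M) M := by
    apply le_trans (Cardinal.natCast_lt_aleph0).le
    rw [← not_lt]
    intro h
    exact hinf (Module.rank_lt_aleph0_iff.1 h)
  obtain ⟨s, hs, hli⟩ := exists_finset_linearIndependent_of_le_rank h1
  let e : Fin (m + 1) ≃ s := (Fintype.equivFinOfCardEq (by simpa using hs)).symm
  let v : Fin (m + 1) → M := fun i => (e i : M)
  have hv : LinearIndependent (Module.End R M) v := by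
    have h2 : LinearIndependent (Module.End R M) (fun i : s => (i : M)) := hli
    exact h2.comp e e.injective
  have hf : ∀ k : Fin m, ∃ f : M →ₗ[Module.End R M] M,
      ∀ j, f (v j) = if j = k.succ then v k.castSucc else 0 := by
    intro k
    obtain ⟨g, hg⟩ := LinearMap.exists_extend ((Module.Basis.span hv).constr ℤ
      (fun j => if j = k.succ then v k.castSucc else 0))
    refine ⟨g, fun j => ?_⟩
    have h3 := congrArg (fun h => h (Module.Basis.span hv j)) hg
    simp only [LinearMap.comp_apply, Module.Basis.constr_basis] at h3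
    rw [← h3]
    congr 1
    simp [Module.Basis.span_apply]
  choose f hf using hf
  have hr : ∀ k : Fin m, ∃ r : R, ∀ j, r • v j = if j = k.succ then v k.castSucc else 0 := by
    intro k
    obtain ⟨r, hr⟩ := jacobson_density (f k) (Finset.univ.image v)
    refine ⟨r, fun j => ?_⟩
    rw [← hr (v j) (Finset.mem_image_of_mem v (Finset.mem_univ j)), hf]
  choose r hr using hr
  have h2 := hid (fun j => r (π0⁻¹ j))
  have h3 := congrArg (fun z => z • v (Fin.last m)) h2
  simp only [Finset.sum_smul, zero_smul] at h3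
  have h4 : ∀ π : Equiv.Perm (Fin m),
      (nn π • (List.ofFn fun k => r (π0⁻¹ (π k))).prod) • v (Fin.last m) =
      if π = π0 then nn π0 • v 0 else 0 := by
    intro π
    rw [smul_assoc]
    have h5 := chain_prod v r hr (π0⁻¹ * π)
    have h6 : (List.ofFn fun k => r (π0⁻¹ (π k))).prod • v (Fin.last m) =
      if π0⁻¹ * π = 1 then v 0 else 0 := h5
    rw [h6]
    by_cases h7 : π = π0
    · rw [if_pos h7, if_pos (by rw [h7, inv_mul_cancel]), h7]
    · rw [if_neg h7, if_neg, smul_zero]
      intro h8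
      exact h7 (inv_mul_eq_one.1 h8).symm
  rw [Finset.sum_congr rfl (fun π _ => h4 π), Finset.sum_ite_eq' Finset.univ π0,
    if_pos (Finset.mem_univ _)] at h3
  exact hv.ne_zero 0 (h0 _ h3)

/-- an integer acts injectively on a simple module unless it annihilates it -/
theorem int_smul_inj {R M : Type} [Ring R] [AddCommGroup M] [Module R M] [IsSimpleModule R M]
    (N : ℤ) {w : M} (hw : N • w ≠ 0) : ∀ v : M, N • v = 0 → v = 0 := by
  intro v hv
  by_contra hv0
  obtain ⟨_, hs⟩ := isSimpleModule_iff_toSpanSingleton_surjective.1 (inferInstance :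
    IsSimpleModule R M)
  obtain ⟨r, hr⟩ := hs v hv0 w
  have hr' : r • v = w := hr
  apply hw
  rw [← hr', smul_comm, hv, smul_zero]

theorem exists_matrix' {C : Type} [Ring C] {m : ℕ}
    (nn : Equiv.Perm (Fin m) → ℤ) (π0 : Equiv.Perm (Fin m))
    (hid : ∀ a : Fin m → C, ∑ π, nn π • (List.ofFn fun k => a (π k)).prod = 0)
    {β γ : C} (hγβ : γ = ((nn π0 : ℤ) : C) * β) (hγ : ∀ k, γ ^ k ≠ 0) :
    ∃ (K : Type) (_ : Field K) (s : ℕ) (Θ : C →+* Matrix (Fin s) (Fin s) K),
      ∀ k, Θ γ ^ k ≠ 0 := by
  classical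
  obtain ⟨M, i1, i2, hsimp, hM⟩ := exists_simple hγ
  have hinj : ∀ v : M, nn π0 • v = 0 → v = 0 := by
    obtain ⟨v, hv⟩ := hM 1
    apply int_smul_inj (R := C[X]) (nn π0) (w := (Polynomial.C β : C[X]) • v)
    intro h
    apply hv
    rw [pow_one, hγβ, ← h, ← smul_assoc, ← map_zsmul, zsmul_eq_mul]
  let ρ : C[X] →+* AddMonoid.End M := Module.toAddMonoidEnd C[X] M
  have hρ : ∀ q (v : M), ρ q v = q • v := fun q v => rfl
  obtain ⟨X', hX1, hX2, hX3⟩ := exists_comm_max (Set.range ρ)
  have hone : (1 : AddMonoid.End M) ∈ X' :=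
    hX3 1 (fun s _ => by rw [one_mul, mul_one]) (fun s _ => by rw [one_mul, mul_one])
  have hmul : ∀ a ∈ X', ∀ b ∈ X', a * b ∈ X' := by
    intro a ha b hb
    apply hX3
    · intro s hs
      rw [mul_assoc, hX1 b hb s hs, ← mul_assoc, hX1 a ha s hs, mul_assoc]
    · intro s hs
      rw [mul_assoc, hX2 b hb s hs, ← mul_assoc, hX2 a ha s hs, mul_assoc]
  have hX : ρ X ∈ X' := by
    apply hX3
    · rintro _ ⟨q, rfl⟩
      rw [← map_mul, ← map_mul, X_mul]
    · intro ψ hψ
      exact (hX1 ψ hψ _ ⟨X, rfl⟩).symm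
  let G : Submonoid (AddMonoid.End M) :=
    { carrier := {z | ∃ r : C, ∃ κ ∈ X', z = (ρ.comp Polynomial.C) r * κ}
      mul_mem' := by
        rintro _ _ ⟨r, κ, hκ, rfl⟩ ⟨r', κ', hκ', rfl⟩
        refine ⟨r * r', κ * κ', hmul _ hκ _ hκ', ?_⟩
        have e := hX1 κ hκ ((ρ.comp Polynomial.C) r') ⟨Polynomial.C r', rfl⟩
        rw [map_mul, mul_assoc, ← mul_assoc κ, e]
        simp only [mul_assoc]
      one_mem' := ⟨1, 1, hone, by rw [map_one, one_mul]⟩ }
  let T : Subring (AddMonoid.End M) := Subring.closure (G : Set (AddMonoid.End M))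
  have hT : ∀ t ∈ T, t ∈ AddSubgroup.closure
      {z | ∃ r : C, ∃ κ ∈ X', z = (ρ.comp Polynomial.C) r * κ} := by
    intro t ht
    have h1 := Subring.mem_closure_iff.1 ht
    rw [Submonoid.closure_eq] at h1
    exact h1
  have hCT : ∀ r : C, ρ (Polynomial.C r) ∈ T := fun r =>
    Subring.subset_closure ⟨r, 1, hone, by rw [mul_one]; rfl⟩
  have hXT : ∀ κ ∈ X', κ ∈ T := fun κ hκ =>
    Subring.subset_closure ⟨1, κ, hκ, by rw [map_one, one_mul]⟩
  have hρT : ∀ q : C[X], ρ q ∈ T := by
    intro q
    induction q using Polynomial.induction_on with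
    | C a => exact hCT a
    | add p q hp hq => rw [map_add]; exact add_mem hp hq
    | monomial n a _ =>
      rw [map_mul, map_pow]
      exact mul_mem (hCT a) (pow_mem (hXT _ hX) _)
  have hsT : IsSimpleModule T M := by
    rw [isSimpleModule_iff_toSpanSingleton_surjective]
    obtain ⟨hn, hs⟩ := isSimpleModule_iff_toSpanSingleton_surjective.1 hsimp
    refine ⟨hn, fun x hx y => ?_⟩
    obtain ⟨q, hq⟩ := hs x hx y
    exact ⟨⟨ρ q, hρT q⟩, hq⟩
  -- endomorphisms
  let toE : Module.End T M → AddMonoid.End M := fun φ => φ.toAddMonoidHom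
  have hend : ∀ φ : Module.End T M, toE φ ∈ X' := by
    intro φ
    have h1 : ∀ t ∈ T, toE φ * t = t * toE φ := by
      intro t ht
      ext v
      exact φ.map_smul (⟨t, ht⟩ : T) v
    apply hX3
    · rintro _ ⟨q, rfl⟩
      exact h1 _ (hρT q)
    · intro ψ hψ
      exact h1 _ (hXT ψ hψ)
  have hcomm : ∀ φ ψ : Module.End T M, φ * ψ = ψ * φ := by
    intro φ ψ
    have h1 := hX2 _ (hend φ) _ (hend ψ)
    ext v
    exact congrArg (fun f : AddMonoid.End M => f v) h1
  have hidT : ∀ t : Fin m → T, ∑ π, nn π • (List.ofFn fun k => t (π k)).prod = 0 := by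
    intro t
    have h1 := identity_ext nn (ρ.comp Polynomial.C) hid X' hX2
      (fun κ hκ r => hX1 κ hκ _ ⟨Polynomial.C r, rfl⟩) (fun j => (t j : AddMonoid.End M))
      (fun j => hT _ (t j).2)
    apply Subtype.val_injective
    rw [AddSubmonoidClass.coe_finsetSum]
    change _ = (0 : AddMonoid.End M)
    rw [← h1]
    apply Finset.sum_congr rfl
    intro π _
    have h2 : (((List.ofFn fun k => t (π k)).prod : T) : AddMonoid.End M) =
        (List.ofFn fun k => (t (π k) : AddMonoid.End M)).prod := by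
      have := map_list_prod T.subtype (List.ofFn fun k => t (π k))
      rw [List.map_ofFn] at this
      exact this
    rw [← h2]
    rfl
  let iD : DivisionRing (Module.End T M) := Module.End.instDivisionRing
  let iF : Field (Module.End T M) := { iD with mul_comm := hcomm }
  have hfin : Module.Finite (Module.End T M) M := finite_of_identity' nn π0 hinj hidT
  let toT : C →+* T := (ρ.comp Polynomial.C).codRestrict T hCT
  let ψ : C →+* Module.End (Module.End T M) M := (Module.toModuleEnd (Module.End T M) M).comp toT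
  obtain ⟨s, Θ, hΘ⟩ := matrix_of_comm ψ γ (by
    intro k hk
    obtain ⟨v, hv⟩ := hM k
    apply hv
    have h1 : ∀ j, (ψ γ ^ j) v = (Polynomial.C γ : C[X]) ^ j • v := by
      intro j
      induction j with
      | zero => rw [pow_zero, pow_zero, one_smul]; rfl
      | succ j ih =>
        rw [pow_succ', pow_succ', mul_smul, ← ih]
        rfl
    rw [← h1, hk]
    rfl)
  exact ⟨_, iF, s, Θ, hΘ⟩

/-- two-generated torsion-free rings without zero divisors are commutative -/
theorem domain_commZ {E : Set (RTerm × RTerm)} {n : ℕ} (hD : D2Engel E n)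
    {P : Type} [NonUnitalRing P] (hP : Models E P)
    (htf : ∀ (k : ℤ) (z : P), k ≠ 0 → k • z = 0 → z = 0)
    (hdom : ∀ a b : P, a * b = 0 → a = 0 ∨ b = 0) {x y : P}
    (hg : GenBy x y) : x * y = y * x := by
  classical
  by_contra hne
  set α := x * y - y * x with hα
  have hα0 : α ≠ 0 := fun h => hne (sub_eq_zero.1 h)
  obtain ⟨m, nn, h1, hid⟩ := exists_multilinearZ hD P hP
  have hNα : nn 1 • α ≠ 0 := fun h => hα0 (htf _ _ h1 h)
  have hNαk : ∀ k, npw (nn 1 • α) k ≠ 0 := by
    intro k
    induction k with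
    | zero => exact hNα
    | succ k ih =>
      intro h
      rcases hdom _ _ h with h | h
      · exact ih h
      · exact hNα h
  have hγβ : ((nn 1 • α : P) : Unitization ℤ P) = ((nn 1 : ℤ) : Unitization ℤ P) *
      (α : Unitization ℤ P) := by
    have h2 : ((nn 1 : ℤ) : Unitization ℤ P) = Unitization.inl (nn 1) :=
      (eq_intCast (Unitization.inlRingHom ℤ P) (nn 1)).symm
    rw [h2, Unitization.inl_mul_inr]
  have hγ : ∀ k, ((nn 1 • α : P) : Unitization ℤ P) ^ k ≠ 0 := by
    intro k
    cases k with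
    | zero => rw [pow_zero]; exact one_ne_zero
    | succ k =>
      rw [← inr_npw]
      intro h
      exact hNαk k (Unitization.inr_injective (h.trans (Unitization.inr_zero ℤ).symm))
  obtain ⟨K, iK, s, Θ, hΘ⟩ := exists_matrix' nn 1 hid hγβ hγ
  let Θ₁ : P →ₙ+* Matrix (Fin s) (Fin s) K :=
    { toFun := fun a => Θ (a : Unitization ℤ P)
      map_mul' := by intro a b; rw [Unitization.inr_mul, map_mul]
      map_zero' := by rw [Unitization.inr_zero, map_zero]
      map_add' := by intro a b; rw [Unitization.inr_add, map_add] }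
  obtain ⟨k, hk⟩ := no_rep hD hP hg Θ₁
  rw [npw_eq_pow] at hk
  have hk' : Θ (α : Unitization ℤ P) ^ (k + 1) = 0 := hk
  apply hΘ (k + 1)
  rw [hγβ, map_mul, map_intCast, (Int.cast_commute _ _).mul_pow, hk', mul_zero]

/-- a prime ring is torsion-free or killed by a prime number -/
theorem prime_char {P : Type} [NonUnitalRing P] (hP : PrimeR P) :
    (∀ (k : ℤ) (z : P), k ≠ 0 → k • z = 0 → z = 0) ∨
      ∃ p : ℕ, p.Prime ∧ ∀ x : P, p • x = 0 := by
  classical
  by_cases htf : ∀ (k : ℤ) (z : P), k ≠ 0 → k • z = 0 → z = 0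
  · exact Or.inl htf
  right
  push Not at htf
  obtain ⟨k, z, hk, hkz, hz⟩ := htf
  have hkill : ∀ (a b : ℕ), (∀ x : P, (a * b) • x = 0) → (∀ x : P, a • x = 0) ∨
      (∀ x : P, b • x = 0) := by
    intro a b hab
    by_contra hcon
    push Not at hcon
    obtain ⟨⟨u, hu⟩, v, hv⟩ := hcon
    rcases hP (a • u) (b • v) (fun r => by
      rw [smul_mul_assoc, smul_mul_assoc, mul_smul_comm, ← mul_smul, hab]) with h | h
    · exact hu h
    · exact hv h
  have hex : ∃ N : ℕ, 0 < N ∧ ∀ x : P, N • x = 0 := by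
    refine ⟨k.natAbs, Int.natAbs_pos.2 hk, ?_⟩
    intro x
    have h1 : ∀ w : P, k • w = 0 := by
      intro w
      rcases hP z (k • w) (fun r => by
        rw [mul_smul_comm, ← smul_mul_assoc, ← smul_mul_assoc, hkz, zero_mul, zero_mul]) with h | h
      · exact absurd h hz
      · exact h
    have h2 := h1 x
    rcases Int.natAbs_eq k with h | h
    · rw [h] at h2
      rwa [natCast_zsmul] at h2
    · rw [h, neg_smul, neg_eq_zero] at h2
      rwa [natCast_zsmul] at h2
  obtain ⟨hN0, hN⟩ := Nat.find_spec hex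
  set N := Nat.find hex with hNdef
  refine ⟨N, ?_, hN⟩
  rw [Nat.prime_def]
  constructor
  · by_contra hlt
    have : N = 1 := by omega
    rw [this] at hN
    apply hz
    have := hN z
    rwa [one_smul] at this
  · intro d hd
    obtain ⟨e, he⟩ := hd
    have hd0 : 0 < d := Nat.pos_of_ne_zero (by rintro rfl; rw [zero_mul] at he; omega)
    have he0 : 0 < e := Nat.pos_of_ne_zero (by rintro rfl; rw [mul_zero] at he; omega)
    rcases hkill d e (by rw [← he]; exact hN) with h | h
    · right
      have h1 := Nat.find_min' hex ⟨hd0, h⟩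
      have h2 : d ≤ N := by rw [he]; exact Nat.le_mul_of_pos_right d he0
      exact le_antisymm h2 h1
    · left
      have h1 : N ≤ e := Nat.find_min' hex ⟨he0, h⟩
      have h2 : d * e ≤ 1 * e := by rw [one_mul, ← he]; exact h1
      have h3 := Nat.le_of_mul_le_mul_right h2 he0
      omega

/-- the prime rings of the variety are commutative -/
theorem prime_comm_all {E : Set (RTerm × RTerm)} {n : ℕ} (hD : D2Engel E n)
    (hW : ∀ p : ℕ, p.Prime → IsEngel (E ∪ WId p (p ^ 1))) (P : Type) [NonUnitalRing P]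
    (hP : Models E P) (hprime : PrimeR P) (x y : P) : x * y = y * x := by
  rcases prime_char hprime with htf | ⟨p, hp, hpP⟩
  · have h1 := domain_commZ hD (hP.subring (sub2 x y))
      (fun k z hk hz => Subtype.ext (htf k z hk (congrArg Subtype.val hz)))
      (fun a b hab => by
        rcases domain_of_prime hD hP hprime (a := (a : P)) (b := (b : P))
          (congrArg Subtype.val hab) with h | h
        · exact Or.inl (Subtype.ext h)
        · exact Or.inr (Subtype.ext h)) (genBy_sub2 x y)
    exact congrArg Subtype.val h1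
  · have : Fact p.Prime := ⟨hp⟩
    exact prime_comm hD (hW p hp) hP hpP hprime x y

theorem isEngel_of_W {E : Set (RTerm × RTerm)}
    (hW : ∀ p k : ℕ, p.Prime → 1 ≤ k → IsEngel (E ∪ WId p (p ^ k))) : IsEngel E := by
  obtain ⟨n, hD⟩ := exists_D2Engel hW
  exact engel_of_prime_comm hD (fun P _ hP hprime x y =>
    prime_comm_all hD (fun p hp => hW p 1 hp le_rfl) P hP hprime x y)

/-- Every minimal non-Engel variety is a Cross variety. -/
theorem minimal_nonEngel_cross {E : Set (RTerm × RTerm)} (h : MinimalNonEngel E) : IsCross E := by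
  obtain ⟨hne, hmin⟩ := h
  by_contra hcross
  apply hne
  apply isEngel_of_W
  intro p k hp hk
  have : Fact p.Prime := ⟨hp⟩
  apply hmin
  · intro R _ hR e he
    exact hR e (Or.inl he)
  · intro hsub
    apply hcross
    apply cross_of_sub (p := p) hk
    intro R _ hR e he
    exact hsub R hR e (Or.inr he)

end Pool.Agent.Y87.NE
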