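import Pool.Agent.H854R3.NE.FinRed

/-! If the prime rings of a variety are commutative and the rings of the variety whose commutator
ideal has square zero satisfy an Engel identity, then the variety is Engel. -/

set_option autoImplicit false

namespace Pool.Agent.Y87.NE

open Pool.Agent.H854R3.NE

variable {R : Type} [NonUnitalRing R]

/-- a sequence `c (i+1) = c i * r i * c i` of non-zero elements survives in a prime quotient -/
theorem exists_prime_quot_mseq (c : ℕ → R) (hc : ∀ i, ∃ r, c (i + 1) = c i * r * c i)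
    (hne : ∀ i, c i ≠ 0) :
    ∃ (Q : Type) (_ : NonUnitalRing Q) (φ : R →ₙ+* Q), Function.Surjective φ ∧ PrimeR Q ∧
      φ (c 0) ≠ 0 := by
  -- divisibility along the sequence
  have hdiv : ∀ i d, ∃ s t, c (i + d + 1) = c i * s ∧ c (i + d + 1) = t * c i := by
    intro i d
    induction d with
    | zero =>
      obtain ⟨r, hr⟩ := hc i
      exact ⟨r * c i, c i * r, by rw [add_zero, hr, mul_assoc], by rw [add_zero, hr]⟩
    | succ d ih =>
      obtain ⟨s, t, h1, h2⟩ := ih
      obtain ⟨r, hr⟩ := hc (i + d + 1)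
      refine ⟨s * r * c (i + d + 1), c (i + d + 1) * r * t, ?_, ?_⟩
      · have : i + (d + 1) + 1 = i + d + 1 + 1 := by ring
        rw [this, hr]
        nth_rw 1 [h1]
        simp only [mul_assoc]
      · have : i + (d + 1) + 1 = i + d + 1 + 1 := by ring
        rw [this, hr]
        nth_rw 2 [h2]
        simp only [mul_assoc]
  obtain ⟨I, hI, hmax⟩ := exists_max_ideal (fun I : TwoSidedIdeal R => ∀ k, c k ∉ I)
    (by intro k; rw [TwoSidedIdeal.mem_bot]; exact hne k)
    (by
      intro C _ _ hP U hU k hk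
      obtain ⟨I, hI, h⟩ := (hU _).1 hk
      exact hP I hI k h)
  have hmax' : ∀ J : TwoSidedIdeal R, I ≤ J → J ≠ I → ∃ k, c k ∈ J := by
    intro J hJ hne'
    by_contra hcon
    push Not at hcon
    exact hne' (hmax J hcon hJ)
  obtain ⟨Q, inst, φ, hφ, hker⟩ := exists_quot I
  refine ⟨Q, inst, φ, hφ, ?_, fun h => hI 0 ((hker _).1 h)⟩
  intro u v huv
  obtain ⟨u, rfl⟩ := hφ u
  obtain ⟨v, rfl⟩ := hφ v
  have huv' : ∀ g, u * g * v ∈ I := by
    intro g
    rw [← hker, map_mul, map_mul]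
    exact huv _
  by_contra hcon
  push Not at hcon
  obtain ⟨hu, hv⟩ := hcon
  rw [Ne, hker] at hu hv
  let K1 : TwoSidedIdeal R := TwoSidedIdeal.mk' {z | ∀ g, z * g * v ∈ I}
    (by intro g; rw [zero_mul, zero_mul]; exact I.zero_mem)
    (by intro x y hx hy g; rw [add_mul, add_mul]; exact I.add_mem (hx g) (hy g))
    (by intro x hx g; rw [neg_mul, neg_mul]; exact I.neg_mem (hx g))
    (by intro x y hy g; rw [mul_assoc x y g, mul_assoc x]; exact I.mul_mem_left _ _ (hy g))
    (by intro x y hx g; rw [mul_assoc x y g]; exact hx (y * g))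
  have hK1 : ∀ z, z ∈ K1 ↔ ∀ g, z * g * v ∈ I := fun z => TwoSidedIdeal.mem_mk' _ _ _ _ _ _ z
  obtain ⟨i, hi⟩ := hmax' K1 (fun z hz => (hK1 z).2 (fun g =>
      I.mul_mem_right _ _ (I.mul_mem_right _ _ hz)))
    (fun h => hu (h ▸ (hK1 u).2 huv'))
  rw [hK1] at hi
  let K2 : TwoSidedIdeal R := TwoSidedIdeal.mk' {z | ∀ g, c i * g * z ∈ I}
    (by intro g; rw [mul_zero]; exact I.zero_mem)
    (by intro x y hx hy g; rw [mul_add]; exact I.add_mem (hx g) (hy g))
    (by intro x hx g; rw [mul_neg]; exact I.neg_mem (hx g))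
    (by intro x y hy g; rw [← mul_assoc, mul_assoc (c i) g x]; exact hy (g * x))
    (by intro x y hx g; rw [← mul_assoc]; exact I.mul_mem_right _ _ (hx g))
  have hK2 : ∀ z, z ∈ K2 ↔ ∀ g, c i * g * z ∈ I := fun z => TwoSidedIdeal.mem_mk' _ _ _ _ _ _ z
  obtain ⟨j, hj⟩ := hmax' K2 (fun z hz => (hK2 z).2 (fun g => I.mul_mem_left _ _ hz))
    (fun h => hv (h ▸ (hK2 v).2 hi))
  rw [hK2] at hj
  -- now `c i * g * c j ∈ I` for all `g`
  rcases lt_trichotomy i j with h | h | h
  · obtain ⟨d, rfl⟩ : ∃ d, j = i + d + 1 := ⟨j - i - 1, by omega⟩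
    obtain ⟨s, t, h1, h2⟩ := hdiv i d
    obtain ⟨r, hr⟩ := hc (i + d + 1)
    have h3 : c (i + d + 1 + 1) = c i * (s * r) * c (i + d + 1) := by
      rw [hr]
      nth_rw 1 [h1]
      simp only [mul_assoc]
    apply hI (i + d + 1 + 1)
    rw [h3]
    exact hj _
  · subst h
    obtain ⟨r, hr⟩ := hc i
    apply hI (i + 1)
    rw [hr]
    exact hj _
  · obtain ⟨d, rfl⟩ : ∃ d, i = j + d + 1 := ⟨i - j - 1, by omega⟩
    obtain ⟨s, t, h1, h2⟩ := hdiv j d
    obtain ⟨r, hr⟩ := hc (j + d + 1)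
    have h3 : c (j + d + 1 + 1) = c (j + d + 1) * (r * t) * c j := by
      rw [hr]
      nth_rw 2 [h2]
      simp only [mul_assoc]
    apply hI (j + d + 1 + 1)
    rw [h3]
    exact hj _

/-- commutators of a ring generated by `z` and `y` lie in the ideal generated by `z` -/
theorem comm_mem_of_gen {z y : R} (hg : GenBy z y) (I : TwoSidedIdeal R) (hz : z ∈ I) :
    ∀ a ∈ Comm R, a ∈ I := by
  obtain ⟨Q, inst, φ, hφ, hker⟩ := exists_quot I
  have h1 : ∀ b : R, φ b * φ y = φ y * φ b := by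
    intro b
    refine hg.induction (P := fun b => φ b * φ y = φ y * φ b) ?_ rfl ?_ ?_ ?_ ?_ b
    · rw [(hker z).2 hz, zero_mul, mul_zero]
    · rw [map_zero, zero_mul, mul_zero]
    · intro a b ha hb; rw [map_add, add_mul, mul_add, ha, hb]
    · intro a ha; rw [map_neg, neg_mul, mul_neg, ha]
    · intro a b ha hb; rw [map_mul, mul_assoc, hb, ← mul_assoc, ha, mul_assoc]
  have h2 : ∀ b c : R, φ b * φ c = φ c * φ b := by
    intro b c
    refine hg.induction (P := fun b => φ b * φ c = φ c * φ b) ?_ ?_ ?_ ?_ ?_ ?_ b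
    · rw [(hker z).2 hz, zero_mul, mul_zero]
    · exact (h1 c).symm
    · rw [map_zero, zero_mul, mul_zero]
    · intro a b ha hb; rw [map_add, add_mul, mul_add, ha, hb]
    · intro a ha; rw [map_neg, neg_mul, mul_neg, ha]
    · intro a b ha hb; rw [map_mul, mul_assoc, hb, ← mul_assoc, ha, mul_assoc]
  rintro _ ⟨u, v, rfl⟩
  rw [← hker, map_sub, map_mul, map_mul, h2, sub_self]

/-- if `z` generates an ideal with square zero, then `⟨z, y⟩` satisfies `D2` -/
theorem D2_sub2 {z y : R} {I : TwoSidedIdeal R} (hz : z ∈ I)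
    (hI : ∀ a ∈ I, ∀ b ∈ I, a * b = 0) : D2 (sub2 z y) := by
  let J : TwoSidedIdeal (sub2 z y) := TwoSidedIdeal.mk' {w | (w : R) ∈ I}
    (I.zero_mem)
    (by intro a b ha hb; exact I.add_mem ha hb)
    (by intro a ha; exact I.neg_mem ha)
    (by intro a b hb; exact I.mul_mem_left _ _ hb)
    (by intro a b ha; exact I.mul_mem_right _ _ ha)
  have hJ : ∀ w, w ∈ J ↔ (w : R) ∈ I := fun w => TwoSidedIdeal.mem_mk' _ _ _ _ _ _ w
  have h1 := comm_mem_of_gen (genBy_sub2 z y) J ((hJ _).2 hz)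
  constructor
  · intro a ha b hb
    exact Subtype.ext (hI _ ((hJ _).1 (h1 a ha)) _ ((hJ _).1 (h1 b hb)))
  · intro a ha b hb c
    exact Subtype.ext (hI _ (I.mul_mem_right _ _ ((hJ _).1 (h1 a ha))) _ ((hJ _).1 (h1 b hb)))

theorem engel_of_prime_comm {E : Set (RTerm × RTerm)} {n : ℕ} (hD : D2Engel E n)
    (hprime : ∀ (P : Type) [NonUnitalRing P], Models E P → PrimeR P → ∀ x y : P, x * y = y * x) :
    IsEngel E := by
  by_contra hcon
  obtain ⟨A, _, x0, y0, hA, hne0⟩ := exists_of_not_engel hcon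
  obtain ⟨J, hJ, hmax⟩ := exists_max_ideal (fun I : TwoSidedIdeal A => ∀ k, eng x0 y0 k ∉ I)
    (by intro k; rw [TwoSidedIdeal.mem_bot]; exact hne0 k)
    (by
      intro C _ _ hP U hU k hk
      obtain ⟨I, hI, h⟩ := (hU _).1 hk
      exact hP I hI k h)
  obtain ⟨Q, inst, φ, hφ, hker⟩ := exists_quot J
  have hQ : Models E Q := hA.of_surjective φ hφ
  set x := φ x0 with hx
  set y := φ y0 with hy
  have hne : ∀ k, eng x y k ≠ 0 := by
    intro k hk
    rw [hx, hy, ← eng_map, hker] at hk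
    exact hJ k hk
  have hall : ∀ I : TwoSidedIdeal Q, I ≠ ⊥ → ∃ k, eng x y k ∈ I := by
    intro I hI
    by_contra hcon2
    push Not at hcon2
    let J' : TwoSidedIdeal A := TwoSidedIdeal.mk' {x | φ x ∈ I}
      (by change φ 0 ∈ I; rw [map_zero]; exact I.zero_mem)
      (by intro x y hx hy; change φ (x + y) ∈ I; rw [map_add]; exact I.add_mem hx hy)
      (by intro x hx; change φ (-x) ∈ I; rw [map_neg]; exact I.neg_mem hx)
      (by intro x y hy; change φ (x * y) ∈ I; rw [map_mul]; exact I.mul_mem_left _ _ hy)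
      (by intro x y hx; change φ (x * y) ∈ I; rw [map_mul]; exact I.mul_mem_right _ _ hx)
    have hJ' : ∀ x, x ∈ J' ↔ φ x ∈ I := fun x => TwoSidedIdeal.mem_mk' _ _ _ _ _ _ x
    have h1 : J' = J := by
      apply hmax J'
      · intro k
        rw [hJ', eng_map]
        exact hcon2 k
      · intro w hw
        rw [hJ', (hker w).2 hw]
        exact I.zero_mem
    obtain ⟨b, hb, hb0⟩ := exists_mem_ne hI
    obtain ⟨b, rfl⟩ := hφ b
    apply hb0
    rw [hker, ← h1, hJ']
    exact hb
  by_cases hsp : ∀ a : Q, (∀ r, a * r * a = 0) → a = 0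
  · -- semiprime case
    have hstep : ∀ a : Q, ∃ r, a ≠ 0 → a * r * a ≠ 0 := by
      intro a
      by_cases ha : a = 0
      · exact ⟨0, fun h => absurd ha h⟩
      · by_contra hcon3
        push Not at hcon3
        exact ha (hsp a (fun r => (hcon3 r).2))
    choose f hf using hstep
    let c : ℕ → Q := fun i => Nat.rec (eng x y 1) (fun _ a => a * f a * a) i
    have hc1 : ∀ i, c (i + 1) = c i * f (c i) * c i := fun i => rfl
    have hcne : ∀ i, c i ≠ 0 := by
      intro i
      induction i with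
      | zero => exact hne 1
      | succ i ih => rw [hc1]; exact hf _ ih
    obtain ⟨P, iP, ψ, hψ, hP, h0⟩ := exists_prime_quot_mseq c (fun i => ⟨_, hc1 i⟩) hcne
    apply h0
    have h2 := hprime P (hQ.of_surjective ψ hψ) hP (ψ x) (ψ y)
    change ψ (eng x y 1) = 0
    change ψ (x * y - y * x) = 0
    rw [map_sub, map_mul, map_mul, h2, sub_self]
  · -- there is a non-zero ideal with square zero
    push Not at hsp
    obtain ⟨a, ha, ha0⟩ := hsp
    obtain ⟨b, hb0, hbb, hbr⟩ : ∃ b : Q, b ≠ 0 ∧ b * b = 0 ∧ ∀ r, b * r * b = 0 := by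
      by_cases haa : a * a = 0
      · exact ⟨a, ha0, haa, ha⟩
      · refine ⟨a * a, haa, ?_, ?_⟩
        · have : a * a * (a * a) = a * (a * a) * a := by simp only [mul_assoc]
          rw [this, ha]
        · intro r
          have : a * a * r * (a * a) = a * (a * r * a) * a := by simp only [mul_assoc]
          rw [this, ha]
    obtain ⟨k, hk⟩ := hall (TwoSidedIdeal.span {b}) (ne_bot_of_mem
      (TwoSidedIdeal.subset_span (Set.mem_singleton b)) hb0)
    have hsq : ∀ u ∈ TwoSidedIdeal.span {b}, ∀ v ∈ TwoSidedIdeal.span {b}, u * v = 0 := by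
      intro u hu v hv
      refine span_mul_zero ?_ ?_ hu hv
      · rintro _ rfl _ rfl
        exact hbb
      · rintro _ rfl _ rfl c
        exact hbr c
    have h1 := D2_sub2 (y := y) hk hsq
    have h2 := hD.2 (sub2 (eng x y k) y) (hQ.subring _) h1 (sx (eng x y k) y) (sy (eng x y k) y)
    have h3 := eng_map (NonUnitalSubringClass.subtype (sub2 (eng x y k) y))
      (sx (eng x y k) y) (sy (eng x y k) y) n
    rw [h2, map_zero] at h3
    apply hne (k + n)
    rw [eng_add]
    exact h3.symm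

end Pool.Agent.Y87.NE
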