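import Pool.Agent.Y87.NE.Semi

/-! Torsion-free rings without zero divisors in the variety are commutative: integral polynomial
identities and their linearisation. -/

set_option autoImplicit false

namespace Pool.Agent.Y87.NE

open Pool.Agent.H854R3.NE Finset

/-! ### Linearisation over the integers -/

theorem of_eq {n : ℕ} (w : FreeMonoid (Fin n)) :
    FreeAlgebra.equivMonoidAlgebraFreeMonoid (R := ℤ) (X := Fin n)
      ((w.toList.map (FreeAlgebra.ι ℤ)).prod) = MonoidAlgebra.of ℤ (FreeMonoid (Fin n)) w := by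
  induction w using FreeMonoid.recOn with
  | one => simp; rfl
  | of_mul a w ih =>
    rw [FreeMonoid.toList_of_mul, List.map_cons, List.prod_cons, map_mul, map_mul, ih]
    congr 1
    simp [FreeAlgebra.equivMonoidAlgebraFreeMonoid]

theorem basis_eq {n : ℕ} (w : FreeMonoid (Fin n)) :
    FreeAlgebra.basisFreeMonoid ℤ (Fin n) w = (w.toList.map (FreeAlgebra.ι ℤ)).prod := by
  apply (FreeAlgebra.equivMonoidAlgebraFreeMonoid (R := ℤ) (X := Fin n)).injective
  rw [of_eq]
  simp [FreeAlgebra.basisFreeMonoid, MonoidAlgebra.coeffLinearEquiv]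

/-- evaluation of integral noncommutative polynomials -/
noncomputable def evZ {n : ℕ} {C : Type} [Ring C] (a : Fin n → C) :
    FreeAlgebra ℤ (Fin n) →ₐ[ℤ] C := FreeAlgebra.lift ℤ a

@[simp] theorem evZ_ι {n : ℕ} {C : Type} [Ring C] (a : Fin n → C) (i : Fin n) :
    evZ a (FreeAlgebra.ι ℤ i) = a i := by
  simp [evZ]

theorem lift_eq {n : ℕ} {C : Type} [Ring C] (a : Fin n → C)
    (f : FreeAlgebra ℤ (Fin n)) :
    evZ a f =
      ∑ w ∈ ((FreeAlgebra.basisFreeMonoid ℤ (Fin n)).repr f).support,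
        (FreeAlgebra.basisFreeMonoid ℤ (Fin n)).repr f w • (w.toList.map a).prod := by
  conv_lhs => rw [← (FreeAlgebra.basisFreeMonoid ℤ (Fin n)).linearCombination_repr f]
  rw [Finsupp.linearCombination_apply, Finsupp.sum, map_sum]
  refine Finset.sum_congr rfl fun w _ => ?_
  rw [map_smul, basis_eq, map_list_prod, List.map_map]
  congr 2
  apply List.map_congr_left
  intro x _
  simp

theorem prod_sum {C : Type} [Ring C] {l d : ℕ} (S : Fin l → Finset (Fin d))
    (a : Fin d → C) :
    (List.ofFn fun k => ∑ j ∈ S k, a j).prod =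
      ∑ φ ∈ Fintype.piFinset S, (List.ofFn fun k => a (φ k)).prod := by
  have h := (MultilinearMap.mkPiAlgebraFin ℤ l C).map_sum_finset (fun _ j => a j) S
  simpa [MultilinearMap.mkPiAlgebraFin_apply] using h

/-- inclusion-exclusion: the part of a substituted monomial of degree at most `d` in which all
`d` new variables occur -/
theorem incl_excl {C : Type} [Ring C] {n d : ℕ} (u : Fin d → Fin n)
    (a : Fin d → C) (w : List (Fin n)) (hw : w.length ≤ d) :
    ∑ U : Finset (Fin d), ((-1 : ℤ) ^ U.card) •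
      (w.map fun i => ∑ j ∈ univ.filter (fun j => j ∉ U ∧ u j = i), a j).prod =
    ∑ τ : Equiv.Perm (Fin d), if List.ofFn (fun k => u (τ k)) = w then
      (List.ofFn fun k => a (τ k)).prod else 0 := by
  classical
  obtain ⟨l, w', rfl⟩ : ∃ l, ∃ w' : Fin l → Fin n, w = List.ofFn w' :=
    ⟨w.length, w.get, (List.ofFn_get w).symm⟩
  rw [List.length_ofFn] at hw
  have h1 : ∀ U : Finset (Fin d),
      ((-1 : ℤ) ^ U.card) • ((List.ofFn w').map fun i =>
        ∑ j ∈ univ.filter (fun j => j ∉ U ∧ u j = i), a j).prod =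
      ∑ φ : Fin l → Fin d, if (∀ k, φ k ∉ U) ∧ (∀ k, u (φ k) = w' k) then
        ((-1 : ℤ) ^ U.card) • (List.ofFn fun k => a (φ k)).prod else 0 := by
    intro U
    rw [List.map_ofFn]
    have h2 := prod_sum (C := C)
      (fun k => univ.filter (fun j => j ∉ U ∧ u j = w' k)) a
    simp only [Function.comp_def]
    rw [h2, Finset.smul_sum, ← Finset.sum_filter]
    apply Finset.sum_congr _ (fun _ _ => rfl)
    ext φ
    simp only [Fintype.mem_piFinset, mem_filter, mem_univ, true_and]
    exact forall_and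
  rw [Finset.sum_congr rfl (fun U _ => h1 U), Finset.sum_comm]
  have h3 : ∀ φ : Fin l → Fin d, (∑ U : Finset (Fin d),
      if (∀ k, φ k ∉ U) ∧ (∀ k, u (φ k) = w' k) then
        ((-1 : ℤ) ^ U.card) • (List.ofFn fun k => a (φ k)).prod else 0) =
      if Function.Surjective φ ∧ (∀ k, u (φ k) = w' k) then
        (List.ofFn fun k => a (φ k)).prod else 0 := by
    intro φ
    by_cases hc : ∀ k, u (φ k) = w' k
    · simp only [hc, implies_true, and_true]
      have h4 : ∀ U : Finset (Fin d), (∀ k, φ k ∉ U) ↔ U ∈ ((univ.image φ)ᶜ).powerset := by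
        intro U
        simp only [mem_powerset, subset_iff, mem_compl, mem_image, mem_univ, true_and, not_exists]
        constructor
        · intro h x hx k hk
          exact h k (hk ▸ hx)
        · intro h k hk
          exact h hk k rfl
      rw [← Finset.sum_filter]
      have h5 : (univ.filter fun U : Finset (Fin d) => ∀ k, φ k ∉ U) =
          ((univ.image φ)ᶜ).powerset := by
        ext U
        simp only [mem_filter, mem_univ, true_and]
        exact h4 U
      rw [h5, ← Finset.sum_smul, Finset.sum_powerset_neg_one_pow_card]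
      by_cases hs : Function.Surjective φ
      · have : (univ.image φ)ᶜ = ∅ := by
          rw [Finset.image_univ_of_surjective hs]; simp
        rw [if_pos this, if_pos hs, one_smul]
      · have : (univ.image φ)ᶜ ≠ ∅ := by
          intro h
          apply hs
          intro y
          have hy : y ∉ (univ.image φ)ᶜ := by rw [h]; simp
          simpa using hy
        rw [if_neg this, if_neg hs, zero_smul]
    · simp [hc]
  rw [Finset.sum_congr rfl (fun φ _ => h3 φ)]
  rcases hw.lt_or_eq with hlt | rfl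
  · rw [Finset.sum_eq_zero, Finset.sum_eq_zero]
    · intro τ _
      rw [if_neg]
      intro h
      have := congrArg List.length h
      simp at this
      omega
    · intro φ _
      rw [if_neg]
      rintro ⟨h, -⟩
      have := Fintype.card_le_of_surjective φ h
      simp at this
      omega
  · symm
    apply Finset.sum_of_injOn (fun τ : Equiv.Perm (Fin l) => (τ : Fin l → Fin l))
    · intro τ _ τ' _ h
      exact Equiv.coe_fn_injective h
    · intro _ _
      simp
    · intro φ _ hφ
      rw [if_neg]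
      rintro ⟨h, -⟩
      apply hφ
      exact ⟨Equiv.ofBijective φ (Finite.surjective_iff_bijective.1 h), by simp, rfl⟩
    · intro τ _
      have : (List.ofFn (fun k => u (τ k)) = List.ofFn w') ↔
          (Function.Surjective τ ∧ ∀ k, u (τ k) = w' k) := by
        rw [List.ofFn_inj]
        constructor
        · intro h
          exact ⟨τ.surjective, fun k => congrFun h k⟩
        · rintro ⟨-, h⟩
          exact funext h
      by_cases h : List.ofFn (fun k => u (τ k)) = List.ofFn w'
      · rw [if_pos h, if_pos (this.1 h)]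
      · rw [if_neg h, if_neg (fun h' => h (this.2 h'))]

/-- a nonzero integral polynomial identity gives a multilinear one -/
theorem linearise {C : Type} [Ring C] {n : ℕ}
    (f : FreeAlgebra ℤ (Fin n)) (hf : f ≠ 0)
    (h : ∀ a : Fin n → C, evZ a f = 0) :
    ∃ (d : ℕ) (c : Equiv.Perm (Fin d) → ℤ), c 1 ≠ 0 ∧
      ∀ a : Fin d → C, ∑ τ, c τ • (List.ofFn fun k => a (τ k)).prod = 0 := by
  classical
  set p := (FreeAlgebra.basisFreeMonoid ℤ (Fin n)).repr f with hp
  have hp0 : p ≠ 0 := by
    rw [hp]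
    simpa using hf
  obtain ⟨w0, hw0, hmax⟩ := Finset.exists_max_image p.support (fun w => w.toList.length)
    (Finsupp.support_nonempty_iff.2 hp0)
  set d := w0.toList.length with hd
  set u : Fin d → Fin n := w0.toList.get with hu
  set c : Equiv.Perm (Fin d) → ℤ := fun τ =>
    p (FreeMonoid.ofList (List.ofFn fun k => u (τ k))) with hc
  have hc1 : c 1 = p w0 := by
    simp only [hc, Equiv.Perm.coe_one, id_eq, hu]
    congr 1
    rw [List.ofFn_get]
    simp
  have hc1' : c 1 ≠ 0 := by
    rw [hc1]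
    exact Finsupp.mem_support_iff.1 hw0
  refine ⟨d, c, hc1', ?_⟩
  intro a
  have h2 : ∑ U : Finset (Fin d), ((-1 : ℤ) ^ U.card) • evZ
      (fun i : Fin n => ∑ j ∈ univ.filter (fun j => j ∉ U ∧ u j = i), a j) f = 0 := by
    apply Finset.sum_eq_zero
    intro U _
    rw [h, smul_zero]
  simp only [lift_eq, Finset.smul_sum] at h2
  rw [Finset.sum_comm] at h2
  have h3 : ∀ w ∈ p.support, (∑ U : Finset (Fin d), ((-1 : ℤ) ^ U.card) •
      p w • (w.toList.map (fun i : Fin n =>
        ∑ j ∈ univ.filter (fun j => j ∉ U ∧ u j = i), a j)).prod) =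
      ∑ τ : Equiv.Perm (Fin d), if List.ofFn (fun k => u (τ k)) = w.toList then
        p w • (List.ofFn fun k => a (τ k)).prod else 0 := by
    intro w hw
    have h4 := incl_excl u a w.toList (hmax w hw)
    have h5 := congrArg (fun x => p w • x) h4
    simp only [Finset.smul_sum, smul_ite, smul_zero] at h5
    rw [← h5]
    apply Finset.sum_congr rfl
    intro U _
    exact smul_comm _ _ _
  rw [← hp] at h2
  rw [Finset.sum_congr rfl h3, Finset.sum_comm] at h2
  rw [← h2]
  apply Finset.sum_congr rfl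
  intro τ _
  by_cases hτ : FreeMonoid.ofList (List.ofFn fun k => u (τ k)) ∈ p.support
  · rw [Finset.sum_eq_single_of_mem _ hτ]
    · rw [if_pos (by simp)]
    · intro w _ hw
      rw [if_neg]
      intro h'
      apply hw
      rw [h']
      simp
  · rw [Finset.sum_eq_zero]
    · have : c τ = 0 := by
        simpa [hc] using hτ
      rw [this, zero_smul]
    · intro w hw
      rw [if_neg]
      intro h'
      apply hτ
      rw [h']
      simpa using hw

/-! ### An integral polynomial identity for the variety -/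

/-- the free ring with one on two generators -/
abbrev FZ := FreeAlgebra ℤ (Fin 2)

/-- first generator -/
def z0 : FZ := FreeAlgebra.ι ℤ 0
/-- second generator -/
def z1 : FZ := FreeAlgebra.ι ℤ 1

/-- the free ring without one -/
abbrev PhiZ : NonUnitalSubring FZ := sub2 z0 z1

/-- a homomorphism from the free ring -/
noncomputable def toMatZ : FZ →ₐ[ℤ] Matrix (Fin 2) (Fin 2) ℤ :=
  FreeAlgebra.lift ℤ ![!![0, 1; 0, 0], !![0, 0; 0, 1]]

theorem toMatZ_z0 : toMatZ z0 = !![0, 1; 0, 0] := by
  simp [toMatZ, z0]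

theorem toMatZ_z1 : toMatZ z1 = !![0, 0; 0, 1] := by
  simp [toMatZ, z1]

theorem not_models_PhiZ {E : Set (RTerm × RTerm)} {n : ℕ} (hD : D2Engel E n) :
    ¬ Models E PhiZ := by
  intro hM
  let χ : PhiZ →ₙ+* Matrix (Fin 2) (Fin 2) ℤ :=
    { toFun := fun w => toMatZ (w : FZ)
      map_mul' := fun a b => map_mul toMatZ (a : FZ) b
      map_zero' := map_zero toMatZ
      map_add' := fun a b => map_add toMatZ (a : FZ) b }
  let T : NonUnitalSubring (Matrix (Fin 2) (Fin 2) ℤ) := χ.range
  have hT : Models E T := hM.of_surjective χ.rangeRestrict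
    (NonUnitalRingHom.rangeRestrict_surjective χ)
  have hgen := genBy_sub2 z0 z1
  have hχ0 : χ (sx z0 z1) = !![0, 1; 0, 0] := toMatZ_z0
  have hχ1 : χ (sy z0 z1) = !![0, 0; 0, 1] := toMatZ_z1
  have htri : ∀ t ∈ T, t 1 0 = 0 ∧ t 0 0 = 0 := by
    rintro _ ⟨w, rfl⟩
    refine hgen.induction (P := fun w => χ w 1 0 = 0 ∧ χ w 0 0 = 0) ?_ ?_ ?_ ?_ ?_ ?_ w
    · rw [hχ0]; exact ⟨rfl, rfl⟩
    · rw [hχ1]; exact ⟨rfl, rfl⟩
    · rw [map_zero]; exact ⟨rfl, rfl⟩
    · intro a b ha hb
      rw [map_add, Matrix.add_apply, Matrix.add_apply, ha.1, hb.1, ha.2, hb.2]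
      exact ⟨rfl, rfl⟩
    · intro a ha
      rw [map_neg, Matrix.neg_apply, Matrix.neg_apply, ha.1, ha.2]
      exact ⟨rfl, rfl⟩
    · intro a b ha hb
      rw [map_mul, Matrix.mul_apply, Matrix.mul_apply, Fin.sum_univ_two, Fin.sum_univ_two,
        ha.1, hb.1, ha.2, hb.2]
      exact ⟨by ring, by ring⟩
  have hcomm : ∀ g ∈ Comm T, (g : Matrix (Fin 2) (Fin 2) ℤ) 1 1 = 0 := by
    rintro _ ⟨a, b, rfl⟩
    obtain ⟨a1, a2⟩ := htri _ a.2
    obtain ⟨b1, b2⟩ := htri _ b.2
    change ((a : Matrix (Fin 2) (Fin 2) ℤ) * b - b * a) 1 1 = 0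
    rw [Matrix.sub_apply, Matrix.mul_apply, Matrix.mul_apply, Fin.sum_univ_two, Fin.sum_univ_two,
      a1, b1]
    ring
  have hprod : ∀ a b : Matrix (Fin 2) (Fin 2) ℤ, a 0 0 = 0 → a 1 0 = 0 → a 1 1 = 0 →
      b 1 0 = 0 → b 1 1 = 0 → a * b = 0 := by
    intro a b h1 h2 h3 h4 h5
    ext i j
    fin_cases i <;> fin_cases j <;>
      simp [Matrix.mul_apply, Fin.sum_univ_two, h1, h2, h3, h4, h5]
  have hD2 : D2 T := by
    constructor
    · intro a ha b hb
      apply Subtype.ext
      exact hprod _ _ (htri _ a.2).2 (htri _ a.2).1 (hcomm _ ha) (htri _ b.2).1 (hcomm _ hb)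
    · intro a ha b hb c
      apply Subtype.ext
      have h1 : ((a * c : T) : Matrix (Fin 2) (Fin 2) ℤ) 1 1 = 0 := by
        change ((a : Matrix (Fin 2) (Fin 2) ℤ) * c) 1 1 = 0
        rw [Matrix.mul_apply, Fin.sum_univ_two, (htri _ a.2).1, hcomm _ ha]
        ring
      exact hprod _ _ (htri _ (a * c).2).2 (htri _ (a * c).2).1 h1 (htri _ b.2).1 (hcomm _ hb)
  have h1 := hD.2 T hT hD2 (χ.rangeRestrict (sx z0 z1)) (χ.rangeRestrict (sy z0 z1))
  have h2 := eng_map (NonUnitalSubringClass.subtype T) (χ.rangeRestrict (sx z0 z1))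
    (χ.rangeRestrict (sy z0 z1)) n
  rw [h1, map_zero] at h2
  have h3 : eng (!![0, 1; 0, 0] : Matrix (Fin 2) (Fin 2) ℤ) !![0, 0; 0, 1] n = 0 := by
    rw [← hχ0, ← hχ1]
    exact h2.symm
  have h4 : ∀ k, eng (!![0, 1; 0, 0] : Matrix (Fin 2) (Fin 2) ℤ) !![0, 0; 0, 1] k =
      !![0, 1; 0, 0] := by
    intro k
    induction k with
    | zero => rfl
    | succ k ih =>
      change eng (!![0, 1; 0, 0] : Matrix (Fin 2) (Fin 2) ℤ) !![0, 0; 0, 1] k * _ -
        _ * eng (!![0, 1; 0, 0] : Matrix (Fin 2) (Fin 2) ℤ) !![0, 0; 0, 1] k = _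
      rw [ih]
      ext i j
      fin_cases i <;> fin_cases j <;> simp [Matrix.mul_apply, Fin.sum_univ_two]
  rw [h4] at h3
  have h5 := congrFun (congrFun h3 0) 1
  have h6 : (1 : ℤ) = 0 := h5
  exact one_ne_zero h6

theorem exists_polyZ {E : Set (RTerm × RTerm)} {n : ℕ} (hD : D2Engel E n) :
    ∃ f : FZ, f ≠ 0 ∧ ∀ (A : Type) [NonUnitalRing A], Models E A →
      ∀ x y : A, evZ ![(x : Unitization ℤ A), (y : Unitization ℤ A)] f = 0 := by
  by_contra hcon
  push Not at hcon
  apply not_models_PhiZ hD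
  intro e he v
  by_contra hne
  have hw : ((e.1.val v - e.2.val v : PhiZ) : FZ) ≠ 0 := by
    intro h
    apply hne
    have : e.1.val v - e.2.val v = 0 := Subtype.ext h
    exact sub_eq_zero.1 this
  obtain ⟨A, i1, hA, x, y, hxy⟩ := hcon _ hw
  let L := evZ ![(x : Unitization ℤ A), (y : Unitization ℤ A)]
  have hL : ∀ w : PhiZ, ∃ a : A, L (w : FZ) = a := by
    intro w
    refine (genBy_sub2 z0 z1).induction (P := fun w => ∃ a : A, L (w : FZ) = a)
      ?_ ?_ ?_ ?_ ?_ ?_ w
    · exact ⟨x, by simp [L, sx, z0]⟩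
    · exact ⟨y, by simp [L, sy, z1]⟩
    · exact ⟨0, by simp⟩
    · rintro a b ⟨a', ha⟩ ⟨b', hb⟩
      refine ⟨a' + b', ?_⟩
      change L ((a : FZ) + b) = _
      rw [map_add, ha, hb, Unitization.inr_add]
    · rintro a ⟨a', ha⟩
      refine ⟨-a', ?_⟩
      change L (-(a : FZ)) = _
      rw [map_neg, ha, Unitization.inr_neg]
    · rintro a b ⟨a', ha⟩ ⟨b', hb⟩
      refine ⟨a' * b', ?_⟩
      change L ((a : FZ) * b) = _
      rw [map_mul, ha, hb, Unitization.inr_mul]
  choose ψ hψ using hL
  let Ψ : PhiZ →ₙ+* A :=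
    { toFun := ψ
      map_mul' := by
        intro a b
        apply Unitization.inr_injective (R := ℤ)
        rw [Unitization.inr_mul, ← hψ, ← hψ, ← hψ]
        exact map_mul L (a : FZ) b
      map_zero' := by
        apply Unitization.inr_injective (R := ℤ)
        rw [Unitization.inr_zero, ← hψ]
        exact map_zero L
      map_add' := by
        intro a b
        apply Unitization.inr_injective (R := ℤ)
        rw [Unitization.inr_add, ← hψ, ← hψ, ← hψ]
        exact map_add L (a : FZ) b }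
  apply hxy
  have h1 : Ψ (e.1.val v - e.2.val v) = 0 := by
    rw [map_sub, val_map, val_map, sub_eq_zero]
    exact hA e he _
  have h2 : L ((e.1.val v - e.2.val v : PhiZ) : FZ) = (Ψ (e.1.val v - e.2.val v) : A) := hψ _
  rw [h1, Unitization.inr_zero] at h2
  exact h2

/-- substitution of two commutators -/
noncomputable def subC : FZ →ₐ[ℤ] FreeAlgebra ℤ (Fin 4) :=
  FreeAlgebra.lift ℤ ![FreeAlgebra.ι ℤ 0 * FreeAlgebra.ι ℤ 1 - FreeAlgebra.ι ℤ 1 * FreeAlgebra.ι ℤ 0,
    FreeAlgebra.ι ℤ 2 * FreeAlgebra.ι ℤ 3 - FreeAlgebra.ι ℤ 3 * FreeAlgebra.ι ℤ 2]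

theorem evZ_subC {C : Type} [Ring C] (a : Fin 4 → C) (f : FZ) :
    evZ a (subC f) = evZ ![a 0 * a 1 - a 1 * a 0, a 2 * a 3 - a 3 * a 2] f := by
  have h1 : (evZ a).comp subC = evZ ![a 0 * a 1 - a 1 * a 0, a 2 * a 3 - a 3 * a 2] := by
    apply FreeAlgebra.hom_ext
    funext i
    fin_cases i
    · simp [subC]
    · simp [subC]
  exact DFunLike.congr_fun h1 f

/-- a homomorphism to matrices recovering the polynomial -/
noncomputable def recM : FreeAlgebra ℤ (Fin 4) →ₐ[ℤ] Matrix (Fin 2) (Fin 2) FZ :=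
  FreeAlgebra.lift ℤ ![!![0, z0; 0, 0], !![0, 0; 1, 0], !![0, z1; 0, 0], !![0, 0; 1, 0]]

theorem rec_sub (f : FZ) : (recM (subC f)) 0 0 = f ∧ (recM (subC f)) 0 1 = 0 ∧
    (recM (subC f)) 1 0 = 0 := by
  induction f using FreeAlgebra.induction with
  | grade0 r =>
    rw [AlgHom.commutes, AlgHom.commutes]
    refine ⟨?_, ?_, ?_⟩
    · rw [Matrix.algebraMap_matrix_apply]; simp
    · rw [Matrix.algebraMap_matrix_apply]; simp
    · rw [Matrix.algebraMap_matrix_apply]; simp
  | grade1 x =>
    fin_cases x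
    · simp [subC, recM, Matrix.sub_apply, Matrix.mul_apply, Fin.sum_univ_two, z0]
    · simp [subC, recM, Matrix.sub_apply, Matrix.mul_apply, Fin.sum_univ_two, z1]
  | mul a b ha hb =>
    rw [map_mul, map_mul, Matrix.mul_apply, Matrix.mul_apply, Matrix.mul_apply, Fin.sum_univ_two,
      Fin.sum_univ_two, Fin.sum_univ_two, ha.1, ha.2.1, ha.2.2, hb.1, hb.2.1, hb.2.2]
    simp
  | add a b ha hb =>
    rw [map_add, map_add, Matrix.add_apply, Matrix.add_apply, Matrix.add_apply, ha.1, ha.2.1,
      ha.2.2, hb.1, hb.2.1, hb.2.2]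
    simp

theorem comm_unitization {A : Type} [NonUnitalRing A] (u v : Unitization ℤ A) :
    ∃ a : A, u * v - v * u = (a : Unitization ℤ A) := by
  induction u using Unitization.ind with
  | inl_add_inr t s =>
    induction v using Unitization.ind with
    | inl_add_inr t' s' =>
      refine ⟨s * s' - s' * s, ?_⟩
      rw [sub_eq_add_neg (s * s'), Unitization.inr_add, Unitization.inr_neg, Unitization.inr_mul,
        Unitization.inr_mul]
      simp only [add_mul, mul_add, Unitization.inl_mul_inl, Unitization.inl_mul_inr,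
        Unitization.inr_mul_inl, mul_comm t' t]
      abel

theorem exists_multilinearZ {E : Set (RTerm × RTerm)} {n : ℕ} (hD : D2Engel E n)
    (A : Type) [NonUnitalRing A] (hA : Models E A) :
    ∃ (m : ℕ) (α : Equiv.Perm (Fin m) → ℤ), α 1 ≠ 0 ∧ ∀ a : Fin m → Unitization ℤ A,
      ∑ π, α π • (List.ofFn fun k => a (π k)).prod = 0 := by
  obtain ⟨f, hf, hfA⟩ := exists_polyZ hD
  apply linearise (C := Unitization ℤ A) (subC f)
  · intro h
    apply hf
    rw [← (rec_sub f).1, h, map_zero]
    rfl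
  · intro a
    obtain ⟨x, hx⟩ := comm_unitization (a 0) (a 1)
    obtain ⟨y, hy⟩ := comm_unitization (a 2) (a 3)
    rw [evZ_subC, hx, hy]
    exact hfA A hA x y

end Pool.Agent.Y87.NE
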